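import Mathlib

/-!
# Geodetic graphs: a criterion
-/

set_option autoImplicit false

namespace Pool.Agent.U17.Geo

/-- A graph is geodetic if it is connected and every pair of vertices `u`, `v` is joined by exactly
one shortest path, i.e. by exactly one path whose length is the distance of `u` and `v`. -/
def IsGeodetic {V : Type*} (G : SimpleGraph V) : Prop :=
  G.Connected ∧ ∀ u v : V, ∃! p : G.Walk u v, p.IsPath ∧ p.length = G.dist u v

/-- A candidate for the distance function in which every vertex other than the source has exactly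
one predecessor. -/
structure IsDist {V : Type*} (G : SimpleGraph V) (D : V → V → ℕ) : Prop where
  self : ∀ x, D x x = 0
  lip : ∀ x y z, G.Adj y z → D x z ≤ D x y + 1
  par : ∀ x y, x ≠ y → ∃ z, G.Adj y z ∧ D x z + 1 = D x y
  uniq : ∀ x y z z', G.Adj y z → G.Adj y z' → D x z + 1 = D x y → D x z' + 1 = D x y → z = z'

variable {V : Type*} {G : SimpleGraph V} {D : V → V → ℕ}

theorem IsDist.exists_walk (h : IsDist G D) (x : V) : ∀ (k : ℕ) (y : V), D x y = k →
    ∃ p : G.Walk y x, p.length = k := by
  intro k
  induction k with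
  | zero =>
    intro y hy
    by_cases hxy : x = y
    · subst hxy
      exact ⟨SimpleGraph.Walk.nil, rfl⟩
    · obtain ⟨z, _, hz⟩ := h.par x y hxy
      omega
  | succ k ih =>
    intro y hy
    have hxy : x ≠ y := by
      rintro rfl
      rw [h.self] at hy
      omega
    obtain ⟨z, hyz, hz⟩ := h.par x y hxy
    obtain ⟨p, hp⟩ := ih z (by omega)
    exact ⟨SimpleGraph.Walk.cons hyz p, by simp [hp]⟩

theorem IsDist.le_length (h : IsDist G D) (x : V) {y : V} (p : G.Walk y x) :
    D x y ≤ p.length := by
  induction p with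
  | nil => simp [h.self]
  | cons hyz p ih =>
    rw [SimpleGraph.Walk.length_cons]
    exact (h.lip _ _ _ hyz.symm).trans (by omega)

theorem IsDist.unique (h : IsDist G D) (x : V) {y : V} (p : G.Walk y x) :
    ∀ q : G.Walk y x, p.length = D x y → q.length = D x y → p = q := by
  induction p with
  | nil =>
    intro q hp hq
    rw [h.self] at hq
    cases q with
    | nil => rfl
    | cons _ _ => simp at hq
  | @cons u v w huv p ih =>
    intro q hp hq
    cases q with
    | nil =>
      rw [h.self] at hp
      simp at hp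
    | @cons _ v' _ huv' q =>
      rw [SimpleGraph.Walk.length_cons] at hp hq
      have h1 := h.le_length _ p
      have h2 := h.le_length _ q
      have h3 := h.lip w v u huv.symm
      have h4 := h.lip w v' u huv'.symm
      have hv : v = v' := h.uniq w u v v' huv huv' (by omega) (by omega)
      subst hv
      rw [ih q (by omega) (by omega)]

theorem IsDist.connected (h : IsDist G D) [Nonempty V] : G.Connected :=
  ⟨fun x y => by
    obtain ⟨p, _⟩ := h.exists_walk y _ x rfl
    exact ⟨p⟩⟩

theorem IsDist.dist_eq (h : IsDist G D) [Nonempty V] (x y : V) : G.dist y x = D x y := by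
  apply le_antisymm
  · obtain ⟨p, hp⟩ := h.exists_walk x _ y rfl
    rw [← hp]
    exact SimpleGraph.dist_le p
  · obtain ⟨p, hp⟩ := h.connected.exists_walk_length_eq_dist y x
    rw [← hp]
    exact h.le_length x p

/-- The criterion. -/
theorem IsDist.geodetic (h : IsDist G D) [Nonempty V] : IsGeodetic G := by
  refine ⟨h.connected, fun u v => ?_⟩
  obtain ⟨p, hp⟩ := h.connected.exists_walk_length_eq_dist u v
  refine ⟨p, ⟨p.isPath_of_length_eq_dist hp, hp⟩, ?_⟩
  rintro q ⟨_, hq⟩
  exact h.unique v q p (by rw [hq, h.dist_eq]) (by rw [hp, h.dist_eq])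

/-- Being geodetic is invariant under isomorphisms. -/
theorem IsGeodetic.of_iso {V W : Type*} {G : SimpleGraph V} {H : SimpleGraph W} (φ : G ≃g H)
    (h : IsGeodetic G) : IsGeodetic H := by
  obtain ⟨hc, hu⟩ := h
  have hc' : H.Connected := (φ.connected_iff).1 hc
  refine ⟨hc', fun u v => ?_⟩
  obtain ⟨p, hp⟩ := hc'.exists_walk_length_eq_dist u v
  refine ⟨p, ⟨p.isPath_of_length_eq_dist hp, hp⟩, ?_⟩
  rintro q ⟨_, hq⟩
  have hd : G.dist (φ.symm u) (φ.symm v) = H.dist u v := by
    apply le_antisymm
    · rw [← hp, ← SimpleGraph.Walk.length_map φ.symm.toHom p]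
      exact SimpleGraph.dist_le _
    · obtain ⟨r, hr⟩ := hc.exists_walk_length_eq_dist (φ.symm u) (φ.symm v)
      rw [← hr, ← SimpleGraph.Walk.length_map φ.toHom r]
      have h1 : φ.toHom (φ.symm u) = u := φ.apply_symm_apply u
      have h2 : φ.toHom (φ.symm v) = v := φ.apply_symm_apply v
      have := SimpleGraph.dist_le ((r.map φ.toHom).copy h1 h2)
      rwa [SimpleGraph.Walk.length_copy] at this
  have key : ∀ s : H.Walk u v, s.length = H.dist u v →
      (s.map φ.symm.toHom).IsPath ∧ (s.map φ.symm.toHom).length =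
        G.dist (φ.symm u) (φ.symm v) := by
    intro s hs
    have h1 : (s.map φ.symm.toHom).length = G.dist (φ.symm u) (φ.symm v) := by
      rw [SimpleGraph.Walk.length_map, hs, hd]
    exact ⟨SimpleGraph.Walk.isPath_of_length_eq_dist _ h1, h1⟩
  have h3 := (hu (φ.symm u) (φ.symm v)).unique (key q hq) (key p hp)
  exact SimpleGraph.Walk.map_injective_of_injective (f := φ.symm.toHom) φ.symm.injective u v h3

/-! ### Attaching leaves -/

/-- The graph obtained from `K` by attaching leaves: the leaf `t` is attached to `a t`. -/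
def leafGraph {B T : Type*} (K : SimpleGraph B) (a : T → B) : SimpleGraph (B ⊕ T) where
  Adj
    | Sum.inl x, Sum.inl y => K.Adj x y
    | Sum.inl x, Sum.inr t => a t = x
    | Sum.inr t, Sum.inl x => a t = x
    | Sum.inr _, Sum.inr _ => False
  symm := ⟨fun x y h => by
    match x, y with
    | Sum.inl x, Sum.inl y => exact SimpleGraph.Adj.symm (G := K) h
    | Sum.inl x, Sum.inr t => exact h
    | Sum.inr t, Sum.inl x => exact h
    | Sum.inr _, Sum.inr _ => exact h⟩
  loopless := ⟨fun x h => by
    match x with
    | Sum.inl x => exact K.loopless.irrefl x h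
    | Sum.inr _ => exact h⟩

section Leaf

variable {B T : Type*} {K : SimpleGraph B} {a : T → B}

@[simp] theorem leaf_ll (x y : B) : (leafGraph K a).Adj (Sum.inl x) (Sum.inl y) ↔ K.Adj x y :=
  Iff.rfl
@[simp] theorem leaf_lr (x : B) (t : T) : (leafGraph K a).Adj (Sum.inl x) (Sum.inr t) ↔ a t = x :=
  Iff.rfl
@[simp] theorem leaf_rl (x : B) (t : T) : (leafGraph K a).Adj (Sum.inr t) (Sum.inl x) ↔ a t = x :=
  Iff.rfl
@[simp] theorem leaf_rr (t s : T) : (leafGraph K a).Adj (Sum.inr t) (Sum.inr s) ↔ False :=
  Iff.rfl

open Classical in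
/-- The distances after attaching leaves. -/
noncomputable def leafDist (a : T → B) (D : B → B → ℕ) : B ⊕ T → B ⊕ T → ℕ
  | Sum.inl x, Sum.inl y => D x y
  | Sum.inl x, Sum.inr t => D x (a t) + 1
  | Sum.inr t, Sum.inl x => D (a t) x + 1
  | Sum.inr t, Sum.inr s => if t = s then 0 else D (a t) (a s) + 2

theorem IsDist.leaf {D : B → B → ℕ} (h : IsDist K D) : IsDist (leafGraph K a) (leafDist a D) where
  self x := by
    match x with
    | Sum.inl x => exact h.self x
    | Sum.inr t => simp [leafDist]
  lip x y z hyz := by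
    match x, y, z with
    | Sum.inl x, Sum.inl y, Sum.inl z => exact h.lip x y z hyz
    | Sum.inl x, Sum.inl y, Sum.inr t =>
      rw [leaf_lr] at hyz
      subst hyz
      simp [leafDist]
    | Sum.inl x, Sum.inr t, Sum.inl y =>
      rw [leaf_rl] at hyz
      subst hyz
      simp only [leafDist]
      omega
    | Sum.inr t, Sum.inl y, Sum.inl z =>
      have := h.lip (a t) y z hyz
      simp only [leafDist]
      omega
    | Sum.inr t, Sum.inl y, Sum.inr s =>
      rw [leaf_lr] at hyz
      subst hyz
      simp only [leafDist]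
      split_ifs <;> omega
    | Sum.inr t, Sum.inr s, Sum.inl y =>
      rw [leaf_rl] at hyz
      subst hyz
      simp only [leafDist]
      split_ifs with hts
      · subst hts
        rw [h.self]
      · omega
    | _, Sum.inr _, Sum.inr _ => exact absurd hyz (by simp)
  par x y hxy := by
    match x, y with
    | Sum.inl x, Sum.inl y =>
      obtain ⟨z, hz, hz'⟩ := h.par x y (fun h => hxy (by rw [h]))
      exact ⟨Sum.inl z, hz, hz'⟩
    | Sum.inl x, Sum.inr t => exact ⟨Sum.inl (a t), rfl, rfl⟩
    | Sum.inr t, Sum.inl y =>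
      by_cases hty : a t = y
      · subst hty
        exact ⟨Sum.inr t, rfl, by simp [leafDist, h.self]⟩
      · obtain ⟨z, hz, hz'⟩ := h.par (a t) y hty
        exact ⟨Sum.inl z, hz, by simp only [leafDist]; omega⟩
    | Sum.inr t, Sum.inr s =>
      have hts : t ≠ s := fun h => hxy (by rw [h])
      exact ⟨Sum.inl (a s), rfl, by simp [leafDist, hts]⟩
  uniq x y z z' h1 h2 h3 h4 := by
    match x, y, z, z' with
    | Sum.inl x, Sum.inl y, Sum.inl z, Sum.inl z' => rw [h.uniq x y z z' h1 h2 h3 h4]
    | Sum.inl x, Sum.inl y, Sum.inr t, _ =>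
      rw [leaf_lr] at h1
      subst h1
      simp only [leafDist] at h3
      omega
    | Sum.inl x, Sum.inl y, _, Sum.inr t =>
      rw [leaf_lr] at h2
      subst h2
      simp only [leafDist] at h4
      omega
    | _, Sum.inr t, Sum.inl z, Sum.inl z' =>
      rw [leaf_rl] at h1 h2
      rw [← h1, ← h2]
    | _, Sum.inr t, Sum.inr z, _ => exact absurd h1 (by simp)
    | _, Sum.inr t, _, Sum.inr z => exact absurd h2 (by simp)
    | Sum.inr t, Sum.inl y, Sum.inl z, Sum.inl z' =>
      simp only [leafDist] at h3 h4
      rw [h.uniq (a t) y z z' h1 h2 (by omega) (by omega)]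
    | Sum.inr t, Sum.inl y, Sum.inr s, Sum.inl z' =>
      rw [leaf_lr] at h1
      subst h1
      simp only [leafDist] at h3 h4
      split_ifs at h3 with hts
      · subst hts
        rw [h.self] at h4
        omega
      · omega
    | Sum.inr t, Sum.inl y, Sum.inl z, Sum.inr s =>
      rw [leaf_lr] at h2
      subst h2
      simp only [leafDist] at h3 h4
      split_ifs at h4 with hts
      · subst hts
        rw [h.self] at h3
        omega
      · omega
    | Sum.inr t, Sum.inl y, Sum.inr s, Sum.inr s' =>
      rw [leaf_lr] at h1 h2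
      simp only [leafDist] at h3 h4
      split_ifs at h3 with hts
      · split_ifs at h4 with hts'
        · rw [← hts, ← hts']
        · rw [h2] at h4
          omega
      · rw [h1] at h3
        omega

end Leaf

end Pool.Agent.U17.Geo
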