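import Pool.Agent.U17.Geo.Rec

/-!
# The linear space of a graph
-/

set_option autoImplicit false

namespace Pool.Agent.U17.Geo

section Space

variable {W : Type*} (Z : SimpleGraph W)

open Classical in
/-- Names of lines: the lines with more than two points are `{(p, p), (p, q), (q, p), (q, q)}` for
adjacent `p`, `q`. -/
noncomputable def repZ (x y : W × W) : W × W :=
  if x.1 = x.2 then
    (if y.1 = x.1 then (if Z.Adj x.1 y.2 then (y.2, y.2) else y)
     else if Z.Adj x.1 y.1 ∧ (y.2 = x.1 ∨ y.1 = y.2) then (y.1, y.1) else y)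
  else if Z.Adj x.1 x.2 ∧ ((y.1 = x.1 ∧ y.2 = x.1) ∨ (y.1 = x.2 ∧ y.2 = x.2) ∨
    (y.1 = x.2 ∧ y.2 = x.1)) then (x.2, x.1) else y

/-- The linear space of a graph. -/
noncomputable def spaceZ : LinSpace (W × W) (W × W) where
  rep := repZ Z
  symm := by
    rintro ⟨p, p'⟩ ⟨q, q'⟩ ⟨s, s'⟩ h1 h2 h3 h
    have hs : ∀ a b, Z.Adj a b → Z.Adj b a := fun _ _ h => h.symm
    have hi : ∀ a, ¬ Z.Adj a a := fun a => Z.loopless.irrefl a
    simp only [repZ, ne_eq, Prod.mk.injEq] at *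
    grind (splits := 60)

theorem repZ_few (x c : W × W) : ∃ a b d : W × W, ∀ y, y ≠ x → repZ Z x y = c →
    y = a ∨ y = b ∨ y = d := by
  obtain ⟨p, q⟩ := x
  obtain ⟨c1, c2⟩ := c
  by_cases hpq : p = q
  · refine ⟨(c1, c2), (p, c1), (c1, p), ?_⟩
    rintro ⟨y1, y2⟩ hy h
    simp only [repZ, ne_eq, Prod.mk.injEq] at *
    grind (splits := 60)
  · refine ⟨(c1, c2), (p, p), (q, q), ?_⟩
    rintro ⟨y1, y2⟩ hy h
    simp only [repZ, ne_eq, Prod.mk.injEq] at *
    grind (splits := 60)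

theorem spaceZ_only (x : (spaceZ Z).Vtx) (hx : Big (spaceZ Z).graph x) :
    ∃ i, x = (spaceZ Z).R i := by
  classical
  obtain ⟨f, hf, hadj⟩ := hx
  obtain ⟨x, hxv⟩ := x
  have key : ∀ s : Finset (Pt (W × W) (W × W)), (∀ k, (f k).1 ∈ s) → 5 ≤ s.card := by
    intro s hs
    have h1 : (Finset.univ.image (fun k => (f k).1)).card = 5 := by
      rw [Finset.card_image_of_injective]
      · simp
      · intro a b hab
        exact hf (Subtype.ext hab)
    rw [← h1]
    apply Finset.card_le_card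
    intro y hy
    rw [Finset.mem_image] at hy
    obtain ⟨k, _, rfl⟩ := hy
    exact hs k
  cases x with
  | r i => exact ⟨i, rfl⟩
  | u i c =>
    exfalso
    obtain ⟨a, b, d, habd⟩ := repZ_few Z i c
    have h1 := key {.r i, .l i a, .l i b, .l i d} (fun k => by
      have h2 := hadj k
      generalize f k = y at h2
      obtain ⟨y, hy⟩ := y
      cases y with
      | r j =>
        have : i = j := h2
        subst this
        simp
      | u j c' => exact absurd h2 (by simp [LinSpace.graph, LinSpace.adj])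
      | l j m =>
        obtain ⟨h3, h4⟩ := h2
        subst h3
        rcases habd m (Ne.symm hy) h4 with h | h | h <;> subst h <;> simp)
    have h2 : ({.r i, .l i a, .l i b, .l i d} : Finset (Pt (W × W) (W × W))).card ≤ 4 :=
      Finset.card_le_four
    omega
  | l i j =>
    exfalso
    have h1 := key {.u i (repZ Z i j), .l j i} (fun k => by
      have h2 := hadj k
      generalize f k = y at h2
      obtain ⟨y, hy⟩ := y
      cases y with
      | r j => exact absurd h2 (by simp [LinSpace.graph, LinSpace.adj])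
      | u j c' =>
        obtain ⟨h3, h4⟩ := h2
        subst h3
        simp [← h4, spaceZ]
      | l j m =>
        obtain ⟨h3, h4⟩ := h2
        simp [← h3, h4])
    have h2 : ({.u i (repZ Z i j), .l j i} : Finset (Pt (W × W) (W × W))).card ≤ 2 :=
      Finset.card_le_two
    omega

end Space

/-- The graph `X` with three pendant vertices `(i, 1)`, `(i, 2)`, `(i, 3)` at each of its
vertices `(i, 0)`. -/
def hat {n : ℕ} (X : SimpleGraph (Fin n)) : SimpleGraph (Fin n × Fin 4) where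
  Adj x y := (x.2 = 0 ∧ y.2 = 0 ∧ X.Adj x.1 y.1) ∨
    (x.1 = y.1 ∧ ((x.2 = 0 ∧ y.2 ≠ 0) ∨ (x.2 ≠ 0 ∧ y.2 = 0)))
  symm := ⟨fun x y h => by
    rcases h with ⟨h1, h2, h3⟩ | ⟨h1, h2⟩
    · exact Or.inl ⟨h2, h1, h3.symm⟩
    · refine Or.inr ⟨h1.symm, ?_⟩
      rcases h2 with ⟨h2, h3⟩ | ⟨h2, h3⟩
      · exact Or.inr ⟨h3, h2⟩
      · exact Or.inl ⟨h3, h2⟩⟩
  loopless := ⟨fun x h => by
    rcases h with ⟨h1, h2, h3⟩ | ⟨h1, h2⟩
    · exact X.loopless.irrefl _ h3
    · rcases h2 with ⟨h2, h3⟩ | ⟨h2, h3⟩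
      · exact h3 h2
      · exact h2 h3⟩

variable {n : ℕ}

theorem hat_adj {X : SimpleGraph (Fin n)} {x y : Fin n × Fin 4} : (hat X).Adj x y ↔
    (x.2 = 0 ∧ y.2 = 0 ∧ X.Adj x.1 y.1) ∨
    (x.1 = y.1 ∧ ((x.2 = 0 ∧ y.2 ≠ 0) ∨ (x.2 ≠ 0 ∧ y.2 = 0))) := Iff.rfl

/-- six points which are on no large line -/
def six (i : Fin n) : Fin 6 → (Fin n × Fin 4) × (Fin n × Fin 4) :=
  ![((i, 1), (i, 2)), ((i, 2), (i, 1)), ((i, 1), (i, 3)), ((i, 3), (i, 1)), ((i, 2), (i, 3)),
    ((i, 3), (i, 2))]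

theorem six_inj (i : Fin n) : Function.Injective (six i) := by
  intro a b h
  fin_cases a <;> fin_cases b <;> simp [six] at h ⊢

theorem six_rep (X : SimpleGraph (Fin n)) (i : Fin n) (k : Fin 6)
    (x : (Fin n × Fin 4) × (Fin n × Fin 4)) (hx : x ≠ six i k) :
    repZ (hat X) x (six i k) = six i k := by
  obtain ⟨⟨a, b⟩, ⟨c, d⟩⟩ := x
  fin_cases k <;> simp [six, repZ, hat_adj] at hx ⊢ <;> grind

theorem hat_big [NeZero n] (X : SimpleGraph (Fin n)) (x : (Fin n × Fin 4) × (Fin n × Fin 4)) :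
    Big (spaceZ (hat X)).graph ((spaceZ (hat X)).R x) := by
  classical
  -- five of the six points are different from `x`
  have h1 : ∃ g : Fin 5 → Fin 6, Function.Injective g ∧ ∀ k, x ≠ six (0 : Fin n) (g k) := by
    by_cases h : ∃ k, x = six (0 : Fin n) k
    · obtain ⟨k, hk⟩ := h
      refine ⟨k.succAbove, Fin.succAbove_right_injective, fun m hm => ?_⟩
      rw [hk] at hm
      exact Fin.succAbove_ne k m (six_inj _ hm).symm
    · push Not at h
      exact ⟨Fin.castSucc, Fin.castSucc_injective _, fun k => h _⟩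
  obtain ⟨g, hg, hgx⟩ := h1
  refine ⟨fun k => (spaceZ (hat X)).U x (six 0 (g k)) (hgx k), ?_, fun k => rfl⟩
  intro a b hab
  have h2 := congrArg Subtype.val hab
  simp only [LinSpace.U, Pt.u.injEq, true_and] at h2
  change repZ (hat X) x _ = repZ (hat X) x _ at h2
  rw [six_rep X 0 _ x (hgx a), six_rep X 0 _ x (hgx b)] at h2
  exact hg (six_inj _ h2)

theorem hat_rich [NeZero n] (X : SimpleGraph (Fin n)) : Rich (spaceZ (hat X)) :=
  ⟨hat_big X, spaceZ_only _⟩

theorem hat_two [NeZero n] (X : SimpleGraph (Fin n)) : TwoConnected (spaceZ (hat X)).graph := by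
  refine (spaceZ (hat X)).twoConnected fun x => ?_
  have h1 : ∃ g : Fin 5 → Fin 6, Function.Injective g ∧ ∀ k, x ≠ six (0 : Fin n) (g k) := by
    by_cases h : ∃ k, x = six (0 : Fin n) k
    · obtain ⟨k, hk⟩ := h
      refine ⟨k.succAbove, Fin.succAbove_right_injective, fun m hm => ?_⟩
      rw [hk] at hm
      exact Fin.succAbove_ne k m (six_inj _ hm).symm
    · push Not at h
      exact ⟨Fin.castSucc, Fin.castSucc_injective _, fun k => h _⟩
  obtain ⟨g, hg, hgx⟩ := h1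
  have h01 : six (0 : Fin n) (g 0) ≠ six 0 (g 1) := fun h => by
    have := hg (six_inj _ h)
    simp at this
  refine ⟨six 0 (g 0), six 0 (g 1), hgx 0, hgx 1, h01, ?_⟩
  change repZ (hat X) x _ ≠ repZ (hat X) x _
  rw [six_rep X 0 _ x (hgx 0), six_rep X 0 _ x (hgx 1)]
  exact h01

theorem hat_geodetic [NeZero n] (X : SimpleGraph (Fin n)) : IsGeodetic (spaceZ (hat X)).graph :=
  (spaceZ (hat X)).geodetic

/-- The point of a vertex. -/
def pt (i : Fin n) : (Fin n × Fin 4) × (Fin n × Fin 4) := ((i, 0), (i, 0))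

/-- on two lines with more than two points -/
def Dbl (X : SimpleGraph (Fin n)) (x : (Fin n × Fin 4) × (Fin n × Fin 4)) : Prop :=
  ∃ a b c d, x ≠ a ∧ x ≠ b ∧ x ≠ c ∧ x ≠ d ∧ a ≠ b ∧ c ≠ d ∧
    repZ (hat X) x a = repZ (hat X) x b ∧ repZ (hat X) x c = repZ (hat X) x d ∧
    repZ (hat X) x a ≠ repZ (hat X) x c

theorem rep_eq_cases {W : Type*} (Z : SimpleGraph W) (x a b : W × W) (hab : a ≠ b)
    (h : repZ Z x a = repZ Z x b) :
    (x.1 = x.2 ∧ ∃ k, Z.Adj x.1 k ∧ repZ Z x a = (k, k) ∧ (a = (k, k) ∨ a = (x.1, k) ∨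
      a = (k, x.1)) ∧ (b = (k, k) ∨ b = (x.1, k) ∨ b = (k, x.1))) ∨
    (x.1 ≠ x.2 ∧ Z.Adj x.1 x.2 ∧ repZ Z x a = (x.2, x.1)) := by
  obtain ⟨x, x'⟩ := x
  obtain ⟨a, a'⟩ := a
  obtain ⟨b, b'⟩ := b
  have hi : ∀ a, ¬ Z.Adj a a := fun a => Z.loopless.irrefl a
  simp only [repZ, ne_eq, Prod.mk.injEq] at *
  by_cases hx : x = x'
  · left
    refine ⟨hx, ?_⟩
    subst hx
    by_cases h1 : a = x
    · exact ⟨a', by grind (splits := 60)⟩
    · exact ⟨a, by grind (splits := 60)⟩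
  · right
    grind (splits := 60)

theorem dbl_iff (X : SimpleGraph (Fin n)) (x : (Fin n × Fin 4) × (Fin n × Fin 4)) :
    Dbl X x ↔ ∃ i, x = pt i := by
  constructor
  · rintro ⟨a, b, c, d, h1, h2, h3, h4, h5, h6, h7, h8, h9⟩
    rcases rep_eq_cases _ _ _ _ h5 h7 with ⟨hx, k, hk, hk', _⟩ | ⟨hx, hk, hk'⟩
    · rcases rep_eq_cases _ _ _ _ h6 h8 with ⟨_, m, hm, hm', _⟩ | ⟨hx', _⟩
      · rw [hk', hm'] at h9
        have hkm : k ≠ m := fun h => h9 (by rw [h])
        obtain ⟨⟨x, x1⟩, ⟨x', x1'⟩⟩ := x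
        simp only [hat_adj, Prod.mk.injEq] at hk hm hx
        obtain ⟨hx, hx1⟩ := hx
        subst hx hx1
        refine ⟨x, ?_⟩
        have hx1 : x1 = 0 := by
          by_contra hne
          apply hkm
          rcases hk with ⟨h, _⟩ | ⟨h, h'⟩
          · exact absurd h hne
          · rcases hm with ⟨g, _⟩ | ⟨g, g'⟩
            · exact absurd g hne
            · rcases h' with ⟨h', _⟩ | ⟨_, h'⟩
              · exact absurd h' hne
              · rcases g' with ⟨g', _⟩ | ⟨_, g'⟩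
                · exact absurd g' hne
                · exact Prod.ext (h.symm.trans g) (h'.trans g'.symm)
        rw [hx1]
        rfl
      · exact absurd hx hx'
    · rcases rep_eq_cases _ _ _ _ h6 h8 with ⟨hx', _⟩ | ⟨_, hm, hm'⟩
      · exact absurd hx' hx
      · exact absurd (hk'.trans hm'.symm) h9
  · rintro ⟨i, rfl⟩
    refine ⟨((i, 0), (i, 1)), ((i, 1), (i, 0)), ((i, 0), (i, 2)), ((i, 2), (i, 0)), ?_⟩
    simp [pt, repZ, hat_adj]

theorem adj_iff_rep (X : SimpleGraph (Fin n)) (i j : Fin n) (hij : i ≠ j) :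
    X.Adj i j ↔ ∃ z, z ≠ pt i ∧ z ≠ pt j ∧
      repZ (hat X) (pt i) (pt j) = repZ (hat X) (pt i) z := by
  constructor
  · intro h
    refine ⟨((i, 0), (j, 0)), ?_⟩
    simp [pt, repZ, hat_adj, h, hij, hij.symm]
  · rintro ⟨z, h1, h2, h3⟩
    rcases rep_eq_cases _ _ _ _ (Ne.symm h2) h3 with ⟨_, k, hk, hk', hk'', _⟩ | ⟨hx, _⟩
    · have hkj : k = (j, 0) := by
        simp only [pt, Prod.mk.injEq] at hk''
        rcases hk'' with h | h | h
        · exact h.1.symm
        · exact absurd h.1.1.symm hij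
        · exact absurd h.2.1.symm hij
      rw [hkj, hat_adj] at hk
      rcases hk with ⟨_, _, h⟩ | ⟨_, h | h⟩
      · exact h
      · exact absurd rfl h.2
      · exact absurd rfl h.1
    · exact absurd rfl hx

theorem repZ_map {W W' : Type*} (Z : SimpleGraph W) (Z' : SimpleGraph W') (e : W ≃ W')
    (he : ∀ a b, Z'.Adj (e a) (e b) ↔ Z.Adj a b) (x1 x2 y1 y2 : W) :
    repZ Z' (e x1, e x2) (e y1, e y2) =
      (e (repZ Z (x1, x2) (y1, y2)).1, e (repZ Z (x1, x2) (y1, y2)).2) := by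
  have hinj : ∀ a b, e a = e b ↔ a = b := fun a b => e.injective.eq_iff
  simp only [repZ]
  grind (splits := 60)

/-- Isomorphism of graphs and of the constructions. -/
theorem iso_iff {n : ℕ} [NeZero n] (X Y : SimpleGraph (Fin n)) :
    Nonempty (X ≃g Y) ↔ Nonempty ((spaceZ (hat X)).graph ≃g (spaceZ (hat Y)).graph) := by
  constructor
  · rintro ⟨φ⟩
    let e : Fin n × Fin 4 ≃ Fin n × Fin 4 := Equiv.prodCongr φ.toEquiv (Equiv.refl _)
    have he : ∀ a b, (hat Y).Adj (e a) (e b) ↔ (hat X).Adj a b := by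
      intro a b
      simp only [hat_adj, e, Equiv.prodCongr_apply, Prod.map, Equiv.refl_apply]
      have : ∀ a b, Y.Adj (φ.toEquiv a) (φ.toEquiv b) ↔ X.Adj a b := fun a b => φ.map_adj_iff
      simp only [this, EmbeddingLike.apply_eq_iff_eq]
    refine ⟨mapIso (Equiv.prodCongr e e) (Equiv.prodCongr e e) ?_⟩
    intro x y _
    exact repZ_map (hat X) (hat Y) e he x.1 x.2 y.1 y.2
  · rintro ⟨ψ⟩
    obtain ⟨σ, hσ⟩ := recover (hat_rich X) (hat_rich Y) ψ
    have h1 : ∀ x, Dbl X x ↔ Dbl Y (σ x) := by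
      intro x
      constructor
      · rintro ⟨a, b, c, d, h1, h2, h3, h4, h5, h6, h7, h8, h9⟩
        refine ⟨σ a, σ b, σ c, σ d, σ.injective.ne h1, σ.injective.ne h2, σ.injective.ne h3,
          σ.injective.ne h4, σ.injective.ne h5, σ.injective.ne h6, ?_, ?_, ?_⟩
        · exact (hσ x a b h1 h2).1 h7
        · exact (hσ x c d h3 h4).1 h8
        · exact fun h => h9 ((hσ x a c h1 h3).2 h)
      · rintro ⟨a, b, c, d, h1, h2, h3, h4, h5, h6, h7, h8, h9⟩
        obtain ⟨a, rfl⟩ := σ.surjective a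
        obtain ⟨b, rfl⟩ := σ.surjective b
        obtain ⟨c, rfl⟩ := σ.surjective c
        obtain ⟨d, rfl⟩ := σ.surjective d
        have g1 := σ.injective.ne_iff.1 h1
        have g2 := σ.injective.ne_iff.1 h2
        have g3 := σ.injective.ne_iff.1 h3
        have g4 := σ.injective.ne_iff.1 h4
        refine ⟨a, b, c, d, g1, g2, g3, g4, σ.injective.ne_iff.1 h5, σ.injective.ne_iff.1 h6,
          ?_, ?_, ?_⟩
        · exact (hσ x a b g1 g2).2 h7
        · exact (hσ x c d g3 g4).2 h8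
        · exact fun h => h9 ((hσ x a c g1 g3).1 h)
    have h2 : ∀ i, ∃ j, σ (pt i) = pt j := fun i =>
      (dbl_iff Y _).1 ((h1 _).1 ((dbl_iff X _).2 ⟨i, rfl⟩))
    have h3 : ∀ j, ∃ i, σ (pt i) = pt j := by
      intro j
      obtain ⟨x, hx⟩ := σ.surjective (pt j)
      obtain ⟨i, hi⟩ := (dbl_iff X x).1 ((h1 x).2 ((dbl_iff Y _).2 ⟨j, hx⟩))
      exact ⟨i, by rw [← hi, hx]⟩
    choose f hf using h2
    have hpt : ∀ {i j : Fin n}, pt i = pt j → i = j := by
      intro i j h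
      simpa [pt] using h
    have hinj : Function.Injective f := by
      intro i j h
      apply hpt
      apply σ.injective
      rw [hf, hf, h]
    have hsurj : Function.Surjective f := by
      intro j
      obtain ⟨i, hi⟩ := h3 j
      exact ⟨i, hpt (by rw [← hf, hi])⟩
    refine ⟨⟨Equiv.ofBijective f ⟨hinj, hsurj⟩, ?_⟩⟩
    intro i j
    change Y.Adj (f i) (f j) ↔ X.Adj i j
    by_cases hij : i = j
    · subst hij
      simp
    · have hpij : pt i ≠ pt j := fun h => hij (hpt h)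
      rw [adj_iff_rep X i j hij, adj_iff_rep Y (f i) (f j) (hinj.ne hij), ← hf, ← hf]
      constructor
      · rintro ⟨z, g1, g2, g3⟩
        obtain ⟨z, rfl⟩ := σ.surjective z
        have g1' := σ.injective.ne_iff.1 g1
        have g2' := σ.injective.ne_iff.1 g2
        exact ⟨z, g1', g2', (hσ _ _ _ hpij g1'.symm).2 g3⟩
      · rintro ⟨z, g1, g2, g3⟩
        exact ⟨σ z, σ.injective.ne g1, σ.injective.ne g2, (hσ _ _ _ hpij g1.symm).1 g3⟩

end Pool.Agent.U17.Geo
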