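import Pool.Agent.U17.Geo.Basic

/-!
# Geodetic graphs from linear spaces

Let a linear space be given (points and lines such that any two points are on exactly one line).
Take a vertex `r i` for each point `i`, a vertex `u i L` for each flag, and a vertex `l i j` for
each ordered pair of distinct points; join `r i` to `u i L`, join `u i L` to `l i j` if `j` is on
`L`, and join `l i j` to `l j i`.  The result is a geodetic graph.
-/

set_option autoImplicit false

namespace Pool.Agent.U17.Geo

/-- Vertices: points, flags, ordered pairs of points. -/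
inductive Pt (P C : Type*)
  | r (i : P)
  | u (i : P) (c : C)
  | l (i j : P)

/-- A linear space: `rep i j` is a name of the line through `i` and `j` among the lines
through `i`. -/
structure LinSpace (P C : Type*) where
  /-- the name of a line -/
  rep : P → P → C
  symm : ∀ i j k, i ≠ j → j ≠ k → i ≠ k → rep i j = rep i k → rep j i = rep j k

variable {P C : Type*} (S : LinSpace P C)

/-- Validity of a vertex. -/
def LinSpace.Valid : Pt P C → Prop
  | .r _ => True
  | .u i c => ∃ j, i ≠ j ∧ S.rep i j = c
  | .l i j => i ≠ j

/-- Adjacency. -/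
def LinSpace.adj : Pt P C → Pt P C → Prop
  | .r i, .u j _ => i = j
  | .u i _, .r j => i = j
  | .u i c, .l j k => i = j ∧ S.rep j k = c
  | .l j k, .u i c => i = j ∧ S.rep j k = c
  | .l i j, .l k m => i = m ∧ j = k
  | _, _ => False

open Classical in
/-- distance from `r i` to `u j c` -/
noncomputable def LinSpace.dRU (i j : P) (c : C) : ℕ :=
  if i = j then 1 else if S.rep j i = c then 4 else 6
open Classical in
/-- distance from `r i` to `l j k` -/
noncomputable def LinSpace.dRL (i j k : P) : ℕ :=
  if i = j then 2 else if i = k then 3 else if S.rep j i = S.rep j k then 5 else 7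
open Classical in
/-- distance from `u i c` to `l j k` -/
noncomputable def LinSpace.dUL (i : P) (c : C) (j k : P) : ℕ :=
  if i = j then (if S.rep i k = c then 1 else 3)
  else if i = k then (if S.rep i j = c then 2 else 4)
  else if S.rep i j = c then (if S.rep i k = c then 4 else 6)
  else if S.rep j i = S.rep j k then 6 else if S.rep i k = c then 7 else 8
open Classical in
/-- distance from `u i c` to `u j d` -/
noncomputable def LinSpace.dUU (i : P) (c : C) (j : P) (d : C) : ℕ :=
  if i = j then (if c = d then 0 else 2)
  else 3 + (if S.rep i j = c then 0 else 2) + (if S.rep j i = d then 0 else 2)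
open Classical in
/-- distance from `l i k` to `l j m` -/
noncomputable def LinSpace.dLL (i k j m : P) : ℕ :=
  if i = j then (if k = m then 0 else if S.rep i k = S.rep i m then 2 else 4)
  else if k = j then (if m = i then 1 else if S.rep j i = S.rep j m then 3 else 5)
  else if m = i then (if S.rep i k = S.rep i j then 3 else 5)
  else if k = m then (if S.rep i j = S.rep i k then 4 else 6)
  else if S.rep i k = S.rep i j then (if S.rep j m = S.rep j i then 5 else 7)
  else if S.rep j m = S.rep j i then 7
  else if S.rep j k = S.rep j m ∨ S.rep i m = S.rep i k then 8 else 9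

open Classical in
/-- The distances. -/
noncomputable def LinSpace.dst : Pt P C → Pt P C → ℕ
  | .r i, .r j => if i = j then 0 else 5
  | .r i, .u j c => S.dRU i j c
  | .u j c, .r i => S.dRU i j c
  | .r i, .l j k => S.dRL i j k
  | .l j k, .r i => S.dRL i j k
  | .u i c, .u j d => S.dUU i c j d
  | .u i c, .l j k => S.dUL i c j k
  | .l j k, .u i c => S.dUL i c j k
  | .l i k, .l j m => S.dLL i k j m

theorem LinSpace.lip_aux (x y z : Pt P C) (hx : S.Valid x) (hy : S.Valid y) (hz : S.Valid z)
    (h : S.adj y z) : S.dst x z ≤ S.dst x y + 1 := by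
  have h2 := S.symm
  cases x <;> cases y <;> cases z <;>
    simp only [LinSpace.Valid, LinSpace.adj, LinSpace.dst, LinSpace.dRU, LinSpace.dRL,
      LinSpace.dUL, LinSpace.dUU, LinSpace.dLL] at * <;>
    grind (splits := 60)

theorem LinSpace.uniq_aux (x y z z' : Pt P C) (hx : S.Valid x) (hy : S.Valid y) (hz : S.Valid z)
    (hz' : S.Valid z') (h : S.adj y z) (h' : S.adj y z') (h3 : S.dst x z + 1 = S.dst x y)
    (h4 : S.dst x z' + 1 = S.dst x y) : z = z' := by
  have h2 := S.symm
  cases x <;> cases y <;> cases z <;> cases z' <;>
    simp only [LinSpace.Valid, LinSpace.adj, LinSpace.dst, LinSpace.dRU, LinSpace.dRL,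
      LinSpace.dUL, LinSpace.dUU, LinSpace.dLL] at * <;>
    grind (splits := 60)

open Classical in
/-- The predecessor of `y` on the way from `x`. -/
noncomputable def LinSpace.pred : Pt P C → Pt P C → Pt P C
  | .r i, .r j => .u j (S.rep j i)
  | .u i c, .r j => if i = j then .u i c else .u j (S.rep j i)
  | .l i k, .r j => if i = j then .u j (S.rep j k) else .u j (S.rep j i)
  | .r i, .u j d => if i = j then .r j else if S.rep j i = d then .l j i else .r j
  | .u i _, .u j d => if i = j then .r j else if S.rep j i = d then .l j i else .r j
  | .l i k, .u j d =>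
    if i = j then (if S.rep j k = d then .l j k else .r j)
    else if k = j then (if S.rep j i = d then .l j i else .r j)
    else if S.rep j i = d then .l j i
    else if S.rep i j = S.rep i k then .r j
    else if S.rep j k = d then .l j k else .r j
  | .r i, .l j m => if i = m then .l m j else .u j (S.rep j m)
  | .u i c, .l j m => if i = j then .u j (S.rep j m) else if i = m then .l m j
    else if S.rep i j = c then .u j (S.rep j m)
    else if S.rep j i = S.rep j m then .u j (S.rep j m)
    else if S.rep i m = c then .l m j else .u j (S.rep j m)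
  | .l i k, .l j m => if i = j then .u j (S.rep j m)
    else if k = j then (if m = i then .l m j else .u j (S.rep j m))
    else if m = i then .l m j
    else if k = m then .l m j
    else if S.rep i k = S.rep i j then .u j (S.rep j m)
    else if S.rep j m = S.rep j i then .u j (S.rep j m)
    else if S.rep j k = S.rep j m then .u j (S.rep j m)
    else if S.rep i m = S.rep i k then .l m j else .u j (S.rep j m)

theorem LinSpace.valid_r (i : P) : S.Valid (.r i) ↔ True := Iff.rfl
theorem LinSpace.valid_u (i : P) (c : C) : S.Valid (.u i c) ↔ ∃ j, i ≠ j ∧ S.rep i j = c := Iff.rfl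
theorem LinSpace.valid_l (i j : P) : S.Valid (.l i j) ↔ i ≠ j := Iff.rfl

theorem LinSpace.pred_valid (x y : Pt P C) (hx : S.Valid x) (hy : S.Valid y) (hxy : x ≠ y) :
    S.Valid (S.pred x y) := by
  cases x <;> cases y <;>
    simp only [LinSpace.valid_r, LinSpace.valid_u, LinSpace.valid_l, LinSpace.pred] at * <;>
    (try split_ifs) <;>
    (try simp only [LinSpace.valid_r, LinSpace.valid_u, LinSpace.valid_l]) <;> grind

theorem LinSpace.pred_adj (x y : Pt P C) (hx : S.Valid x) (hy : S.Valid y) (hxy : x ≠ y) :
    S.adj y (S.pred x y) := by
  cases x <;> cases y <;>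
    simp only [LinSpace.valid_r, LinSpace.valid_u, LinSpace.valid_l, LinSpace.pred] at * <;>
    (try split_ifs) <;> (try simp only [LinSpace.adj]) <;> grind

theorem LinSpace.pred_dst (x y : Pt P C) (hx : S.Valid x) (hy : S.Valid y) (hxy : x ≠ y) :
    S.dst x (S.pred x y) + 1 = S.dst x y := by
  have h2 := S.symm
  cases x <;> cases y <;>
    simp only [LinSpace.valid_r, LinSpace.valid_u, LinSpace.valid_l, LinSpace.pred] at * <;>
    (try split_ifs) <;> (try simp only [LinSpace.dst, LinSpace.dRU, LinSpace.dRL,
      LinSpace.dUL, LinSpace.dUU, LinSpace.dLL]) <;> grind (splits := 60)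

end Pool.Agent.U17.Geo
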