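import Pool.Agent.U17.Geo.Lin

/-!
# The graph of a linear space: geodetic, 2-connected, and it determines the linear space
-/

set_option autoImplicit false

namespace Pool.Agent.U17.Geo

variable {P C : Type*} (S : LinSpace P C)

/-- The vertices of the graph of a linear space. -/
abbrev LinSpace.Vtx : Type _ := {v : Pt P C // S.Valid v}

theorem LinSpace.adj_symm {x y : Pt P C} (h : S.adj x y) : S.adj y x := by
  cases x <;> cases y <;> simp only [LinSpace.adj] at * <;> grind

theorem LinSpace.adj_ne {x y : Pt P C} (hx : S.Valid x) (h : S.adj x y) : x ≠ y := by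
  cases x <;> cases y <;> simp only [LinSpace.adj, LinSpace.valid_l] at * <;> grind

/-- The graph of a linear space. -/
def LinSpace.graph : SimpleGraph S.Vtx where
  Adj x y := S.adj x.1 y.1
  symm := ⟨fun _ _ h => S.adj_symm h⟩
  loopless := ⟨fun x h => S.adj_ne x.2 h rfl⟩

theorem LinSpace.isDist : IsDist S.graph (fun x y => S.dst x.1 y.1) where
  self x := by
    obtain ⟨x, hx⟩ := x
    cases x <;> simp [LinSpace.dst, LinSpace.dUU, LinSpace.dLL]
  lip x y z hyz := S.lip_aux _ _ _ x.2 y.2 z.2 hyz
  par x y hxy := by
    have h : x.1 ≠ y.1 := fun h => hxy (Subtype.ext h)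
    exact ⟨⟨S.pred x.1 y.1, S.pred_valid _ _ x.2 y.2 h⟩, S.pred_adj _ _ x.2 y.2 h,
      S.pred_dst _ _ x.2 y.2 h⟩
  uniq x y z z' h1 h2 h3 h4 := Subtype.ext (S.uniq_aux _ _ _ _ x.2 y.2 z.2 z'.2 h1 h2 h3 h4)

/-- the vertex of a point -/
def LinSpace.R (i : P) : S.Vtx := ⟨.r i, trivial⟩
/-- the vertex of the flag consisting of `i` and the line through `i` and `j` -/
def LinSpace.U (i j : P) (h : i ≠ j) : S.Vtx := ⟨.u i (S.rep i j), j, h, rfl⟩
/-- the vertex of the pair `(i, j)` -/
def LinSpace.L (i j : P) (h : i ≠ j) : S.Vtx := ⟨.l i j, h⟩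

theorem LinSpace.geodetic [Nonempty P] : IsGeodetic S.graph := by
  have : Nonempty S.Vtx := ⟨S.R (Classical.arbitrary P)⟩
  exact S.isDist.geodetic

/-- A graph is 2-connected if it has at least three vertices and it is connected after the deletion
of any vertex. -/
def TwoConnected {V : Type*} (G : SimpleGraph V) : Prop :=
  3 ≤ ENat.card V ∧ G.Connected ∧ ∀ v : V, (G.induce {w | w ≠ v}).Connected

/-- reachable avoiding a vertex -/
inductive Av {V : Type*} (G : SimpleGraph V) (v : V) : V → V → Prop
  | refl (x : V) (hx : x ≠ v) : Av G v x x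
  | step (x y z : V) (hx : x ≠ v) (h : G.Adj x y) (hyz : Av G v y z) : Av G v x z

namespace Av

variable {V : Type*} {G : SimpleGraph V} {v : V}

theorem left {x y : V} (h : Av G v x y) : x ≠ v := by cases h <;> assumption

theorem right {x y : V} (h : Av G v x y) : y ≠ v := by
  induction h with
  | refl _ hx => exact hx
  | step _ _ _ _ _ _ ih => exact ih

theorem trans {x y z : V} (h : Av G v x y) (h' : Av G v y z) : Av G v x z := by
  induction h with
  | refl _ hx => exact h'
  | step x y _ hx hxy _ ih => exact .step _ _ _ hx hxy (ih h')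

theorem one {x y : V} (hx : x ≠ v) (hy : y ≠ v) (h : G.Adj x y) : Av G v x y :=
  .step _ _ _ hx h (.refl _ hy)

theorem symm {x y : V} (h : Av G v x y) : Av G v y x := by
  induction h with
  | refl x hx => exact .refl x hx
  | step x y z hx hxy h ih => exact ih.trans (one h.left hx hxy.symm)

theorem reachable {x y : V} (h : Av G v x y) :
    (G.induce {w | w ≠ v}).Reachable ⟨x, h.left⟩ ⟨y, h.right⟩ := by
  induction h with
  | refl x hx => exact SimpleGraph.Reachable.refl _
  | step x y z hx hxy h ih =>
    refine SimpleGraph.Reachable.trans (SimpleGraph.Adj.reachable ?_) ih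
    exact hxy

end Av

theorem twoConnected_of_av {V : Type*} {G : SimpleGraph V} (h3 : 3 ≤ ENat.card V)
    (hc : G.Connected) (h : ∀ v : V, ∃ b : V, b ≠ v ∧ ∀ w, w ≠ v → Av G v w b) :
    TwoConnected G := by
  refine ⟨h3, hc, fun v => ?_⟩
  obtain ⟨b, hb, h⟩ := h v
  have : Nonempty ({w | w ≠ v} : Set V) := ⟨⟨b, hb⟩⟩
  refine ⟨fun x y => ?_⟩
  exact (h x.1 x.2).reachable.trans (h y.1 y.2).reachable.symm

/-- the point to which a vertex belongs -/
def home : Pt P C → P
  | .r i => i
  | .u i _ => i
  | .l i _ => i

/-- Going up inside a tree. -/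
theorem LinSpace.av_up {v : S.Vtx} (w : S.Vtx) (hw : home w.1 ≠ home v.1) :
    Av S.graph v w (S.R (home w.1)) := by
  have hne : ∀ x : S.Vtx, home x.1 = home w.1 → x ≠ v := by
    rintro x hx rfl
    exact hw hx.symm
  obtain ⟨w, hwv⟩ := w
  cases w with
  | r i => exact .refl _ (hne _ rfl)
  | u i c => exact .one (hne _ rfl) (hne _ rfl) rfl
  | l i j =>
    refine .step _ (S.U i j hwv) _ (hne _ rfl) ?_ (.one (hne _ rfl) (hne _ rfl) rfl)
    exact ⟨rfl, rfl⟩

/-- From one tree to another one. -/
theorem LinSpace.av_cross {v : S.Vtx} (i j : P) (hij : i ≠ j) (hi : i ≠ home v.1)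
    (hj : j ≠ home v.1) : Av S.graph v (S.R i) (S.R j) := by
  have h1 := S.av_up (v := v) (S.L i j hij) hi
  have h2 := S.av_up (v := v) (S.L j i hij.symm) hj
  refine h1.symm.trans (.step _ _ _ ?_ ?_ h2)
  · rintro rfl
    exact hi rfl
  · exact ⟨rfl, rfl⟩

theorem LinSpace.twoConnected [Nonempty P] (h2 : ∀ i : P, ∃ j k, i ≠ j ∧ i ≠ k ∧ j ≠ k ∧
    S.rep i j ≠ S.rep i k) : TwoConnected S.graph := by
  refine twoConnected_of_av ?_ S.geodetic.1 fun v => ?_
  · obtain ⟨j, k, hij, hik, hjk, _⟩ := h2 (Classical.arbitrary P)
    generalize Classical.arbitrary P = i at *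
    have : (3 : ℕ∞) = ENat.card (Fin 3) := by simp
    rw [this]
    refine ENat.card_le_card_of_injective (f := ![S.R i, S.R j, S.R k]) ?_
    intro a b hab
    have hR : ∀ x y, S.R x = S.R y → x = y := by
      intro x y h
      have := congrArg Subtype.val h
      simpa [LinSpace.R] using this
    fin_cases a <;> fin_cases b <;> simp at hab ⊢
    · exact hij (hR _ _ hab)
    · exact hik (hR _ _ hab)
    · exact hij (hR _ _ hab).symm
    · exact hjk (hR _ _ hab)
    · exact hik (hR _ _ hab).symm
    · exact hjk (hR _ _ hab).symm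
  · set a := home v.1 with ha
    obtain ⟨j, k, hij, hik, hjk, hrep⟩ := h2 a
    have hRv : ∀ x, x ≠ a → S.R x ≠ v := by
      rintro x hx rfl
      exact hx rfl
    refine ⟨S.R j, hRv _ hij.symm, ?_⟩
    have hout : ∀ w : S.Vtx, home w.1 ≠ a → Av S.graph v w (S.R j) := by
      intro w hw
      refine (S.av_up (v := v) w hw).trans ?_
      by_cases hwj : home w.1 = j
      · rw [hwj]
        exact .refl _ (hRv _ hij.symm)
      · exact S.av_cross _ _ hwj hw hij.symm
    -- from a leaf of the tree of `a`
    have hleaf : ∀ m (hm : a ≠ m), S.L a m hm ≠ v → Av S.graph v (S.L a m hm) (S.R j) := by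
      intro m hm hv
      refine .step _ (S.L m a hm.symm) _ hv ⟨rfl, rfl⟩ (hout _ ?_)
      exact hm.symm
    have hU : ∀ m (hm : a ≠ m), S.U a m hm ≠ v → S.L a m hm ≠ v →
        Av S.graph v (S.U a m hm) (S.R j) := by
      intro m hm h1 h2
      exact .step _ (S.L a m hm) _ h1 ⟨rfl, rfl⟩ (hleaf m hm h2)
    have hR : S.R a ≠ v → Av S.graph v (S.R a) (S.R j) := by
      intro hav
      by_cases hcase : S.U a j hij ≠ v ∧ S.L a j hij ≠ v
      · exact .step _ (S.U a j hij) _ hav rfl (hU j hij hcase.1 hcase.2)
      · have h5 : S.U a k hik ≠ v ∧ S.L a k hik ≠ v := by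
          constructor
          · intro hv1
            apply hcase
            constructor
            · intro h
              rw [← hv1] at h
              have := congrArg Subtype.val h
              simp only [LinSpace.U, Pt.u.injEq] at this
              exact hrep this.2
            · intro h
              rw [← hv1] at h
              have := congrArg Subtype.val h
              simp [LinSpace.L, LinSpace.U] at this
          · intro hv1
            apply hcase
            constructor
            · intro h
              rw [← hv1] at h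
              have := congrArg Subtype.val h
              simp [LinSpace.L, LinSpace.U] at this
            · intro h
              rw [← hv1] at h
              have := congrArg Subtype.val h
              simp only [LinSpace.L, Pt.l.injEq] at this
              exact hjk this.2
        exact .step _ (S.U a k hik) _ hav rfl (hU k hik h5.1 h5.2)
    intro w hwv
    by_cases hwa : home w.1 = a
    · obtain ⟨w, hw⟩ := w
      cases w with
      | r i =>
        have hi : i = a := hwa
        subst hi
        exact hR hwv
      | u i c =>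
        have hi : i = a := hwa
        subst hi
        obtain ⟨m, hm, hmc⟩ := hw
        subst hmc
        by_cases h6 : S.L a m hm = v
        · -- go to the root
          have h7 : S.R a ≠ v := by
            rintro h
            rw [← h6] at h
            have := congrArg Subtype.val h
            simp [LinSpace.R, LinSpace.L] at this
          exact .step _ (S.R a) _ hwv rfl (hR h7)
        · exact hU m hm hwv h6
      | l i m =>
        have hi : i = a := hwa
        subst hi
        exact hleaf m hw hwv
    · exact hout w hwa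

end Pool.Agent.U17.Geo
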