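import Pool.Agent.U17.Geo.Lin2

/-!
# The graph determines the linear space
-/

set_option autoImplicit false

namespace Pool.Agent.U17.Geo

/-- `v` has at least five neighbours -/
def Big {V : Type*} (G : SimpleGraph V) (v : V) : Prop :=
  ∃ f : Fin 5 → V, Function.Injective f ∧ ∀ k, G.Adj v (f k)

theorem Big.map {V W : Type*} {G : SimpleGraph V} {H : SimpleGraph W} (φ : G ≃g H) {v : V}
    (h : Big G v) : Big H (φ v) := by
  obtain ⟨f, hf, h⟩ := h
  exact ⟨fun k => φ (f k), fun a b hab => hf (φ.injective hab), fun k => φ.map_adj_iff.2 (h k)⟩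

theorem Big.iff {V W : Type*} {G : SimpleGraph V} {H : SimpleGraph W} (φ : G ≃g H) {v : V} :
    Big H (φ v) ↔ Big G v := by
  refine ⟨fun h => ?_, fun h => h.map φ⟩
  have := h.map φ.symm
  rwa [φ.symm_apply_apply] at this

/-- The conditions under which the graph determines the linear space. -/
structure Rich {P C : Type*} (S : LinSpace P C) : Prop where
  big : ∀ i, Big S.graph (S.R i)
  only : ∀ x, Big S.graph x → ∃ i, x = S.R i

section

variable {P C P' C' : Type*} {S : LinSpace P C} {S' : LinSpace P' C'}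

theorem exists_sigma (hS : Rich S) (hS' : Rich S') (φ : S.graph ≃g S'.graph) :
    ∃ σ : P ≃ P', ∀ i, φ (S.R i) = S'.R (σ i) := by
  have h1 : ∀ i, ∃ j, φ (S.R i) = S'.R j := fun i => hS'.only _ ((hS.big i).map φ)
  have h2 : ∀ i, ∃ j, φ.symm (S'.R i) = S.R j := fun i => hS.only _ ((hS'.big i).map φ.symm)
  choose f hf using h1
  choose g hg using h2
  have hR : ∀ {x y}, S.R x = S.R y → x = y := by
    intro x y h
    simpa [LinSpace.R] using congrArg Subtype.val h
  have hR' : ∀ {x y}, S'.R x = S'.R y → x = y := by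
    intro x y h
    simpa [LinSpace.R] using congrArg Subtype.val h
  refine ⟨⟨f, g, fun i => ?_, fun i => ?_⟩, hf⟩
  · apply hR
    rw [← hg, ← hf, φ.symm_apply_apply]
  · apply hR'
    rw [← hf, ← hg, φ.apply_symm_apply]

theorem recover (hS : Rich S) (hS' : Rich S') (φ : S.graph ≃g S'.graph) :
    ∃ σ : P ≃ P', ∀ i j k, i ≠ j → i ≠ k →
      (S.rep i j = S.rep i k ↔ S'.rep (σ i) (σ j) = S'.rep (σ i) (σ k)) := by
  obtain ⟨σ, hσ⟩ := exists_sigma hS hS' φ
  refine ⟨σ, ?_⟩
  -- the images of the flags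
  have hU : ∀ i j (h : i ≠ j), ∃ c, (φ (S.U i j h)).1 = .u (σ i) c := by
    intro i j h
    have h1 : S'.graph.Adj (φ (S.R i)) (φ (S.U i j h)) := φ.map_adj_iff.2 rfl
    rw [hσ] at h1
    generalize φ (S.U i j h) = x at h1
    obtain ⟨x, hx⟩ := x
    cases x with
    | r i' => exact absurd h1 (by simp [LinSpace.graph, LinSpace.R, LinSpace.adj])
    | u i' c =>
      have h2 : σ i = i' := h1
      exact ⟨c, by rw [h2]⟩
    | l i' j' => exact absurd h1 (by simp [LinSpace.graph, LinSpace.R, LinSpace.adj])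
  have hL0 : ∀ i j (h : i ≠ j), ∃ m, (φ (S.L i j h)).1 = .l (σ i) m ∧
      (φ (S.U i j h)).1 = .u (σ i) (S'.rep (σ i) m) := by
    intro i j h
    obtain ⟨c, hc⟩ := hU i j h
    have h1 : S'.adj (φ (S.U i j h)).1 (φ (S.L i j h)).1 := by
      have : S'.graph.Adj (φ (S.U i j h)) (φ (S.L i j h)) := φ.map_adj_iff.2 ⟨rfl, rfl⟩
      exact this
    have h3 : ∀ m, φ (S.L i j h) ≠ S'.R m := by
      intro m hm
      have h4 : Big S.graph (S.L i j h) := by
        rw [← Big.iff φ, hm]
        exact hS'.big m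
      obtain ⟨i', hi'⟩ := hS.only _ h4
      have := congrArg Subtype.val hi'
      simp [LinSpace.L, LinSpace.R] at this
    rw [hc] at h1 ⊢
    generalize φ (S.L i j h) = x at h1 h3
    obtain ⟨x, hx⟩ := x
    cases x with
    | r i' => exact absurd rfl (h3 i')
    | u i' c => exact absurd h1 (by simp [LinSpace.adj])
    | l i' j' =>
      obtain ⟨h4, h5⟩ := h1
      subst h4
      exact ⟨j', rfl, by rw [h5]⟩
  have hL : ∀ i j (h : i ≠ j), (φ (S.U i j h)).1 = .u (σ i) (S'.rep (σ i) (σ j)) := by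
    intro i j h
    obtain ⟨m, h1, h2⟩ := hL0 i j h
    obtain ⟨m', h3, _⟩ := hL0 j i h.symm
    have h5 : S'.adj (φ (S.L i j h)).1 (φ (S.L j i h.symm)).1 := by
      have : S'.graph.Adj (φ (S.L i j h)) (φ (S.L j i h.symm)) := φ.map_adj_iff.2 ⟨rfl, rfl⟩
      exact this
    rw [h1, h3] at h5
    rw [h2, h5.2]
  intro i j k hij hik
  have h1 := hL i j hij
  have h2 := hL i k hik
  constructor
  · intro h
    have h3 : S.U i j hij = S.U i k hik := Subtype.ext (by simp only [LinSpace.U, h])
    rw [h3, h2] at h1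
    simp only [Pt.u.injEq, true_and] at h1
    exact h1.symm
  · intro h
    rw [← h] at h2
    have h3 : S.U i j hij = S.U i k hik := φ.injective (Subtype.ext (h1.trans h2.symm))
    have := congrArg Subtype.val h3
    simpa [LinSpace.U] using this

/-- Isomorphic linear spaces (with the same names) have isomorphic graphs. -/
def mapIso (σ : P ≃ P') (τ : C ≃ C') (h : ∀ i j, i ≠ j → S'.rep (σ i) (σ j) = τ (S.rep i j)) :
    S.graph ≃g S'.graph where
  toFun x := ⟨match x.1 with
    | .r i => .r (σ i)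
    | .u i c => .u (σ i) (τ c)
    | .l i j => .l (σ i) (σ j), by
      obtain ⟨x, hx⟩ := x
      cases x with
      | r i => trivial
      | u i c =>
        obtain ⟨j, hj, hc⟩ := hx
        exact ⟨σ j, fun hh => hj (σ.injective hh), by rw [h _ _ hj, hc]⟩
      | l i j => exact fun hh => hx (σ.injective hh)⟩
  invFun x := ⟨match x.1 with
    | .r i => .r (σ.symm i)
    | .u i c => .u (σ.symm i) (τ.symm c)
    | .l i j => .l (σ.symm i) (σ.symm j), by
      obtain ⟨x, hx⟩ := x
      cases x with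
      | r i => trivial
      | u i c =>
        obtain ⟨j, hj, hc⟩ := hx
        have hne : σ.symm i ≠ σ.symm j := fun hh => hj (σ.symm.injective hh)
        refine ⟨σ.symm j, hne, ?_⟩
        have := h _ _ hne
        rw [σ.apply_symm_apply, σ.apply_symm_apply, hc] at this
        rw [this, τ.symm_apply_apply]
      | l i j => exact fun hh => hx (σ.symm.injective hh)⟩
  left_inv x := by
    obtain ⟨x, hx⟩ := x
    cases x <;> simp
  right_inv x := by
    obtain ⟨x, hx⟩ := x
    cases x <;> simp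
  map_rel_iff' := by
    rintro ⟨x, hx⟩ ⟨y, hy⟩
    cases x <;> cases y <;> simp only [LinSpace.graph, LinSpace.adj, Equiv.coe_fn_mk,
      LinSpace.valid_l, EmbeddingLike.apply_eq_iff_eq, not_true] at * <;> try trivial
    · rw [h _ _ hy]
      simp
    · rw [h _ _ hx]
      simp

end

end Pool.Agent.U17.Geo
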