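import Pool.Agent.U17.Geo.Enc
import Pool.Agent.Y815.GI.Red

/-!
# The reduction
-/

set_option autoImplicit false

namespace Pool.Agent.U17.Geo

open Pool.Agent.NPC Pool.Agent.NPC.R671
open Pool.Agent.Y815.GI (GraphIso ent valid valid_iff length_adjMatrix ent_adjMatrix bits_mem)

/-! ### The computation -/

/-- labels of points -/
abbrev Lp := (ℕ × ℕ) × (ℕ × ℕ)

/-- labels of vertices -/
abbrev Lb := ℕ × Lp × Lp

/-- adjacency in the graph with pendant vertices -/
def hatB (M : List (List Bool)) (x y : ℕ × ℕ) : Bool :=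
  (decide (x.2 = 0) && (decide (y.2 = 0) && ent M x.1 y.1)) ||
    (decide (x.1 = y.1) && ((decide (x.2 = 0) && !(decide (y.2 = 0))) ||
      (!(decide (x.2 = 0)) && decide (y.2 = 0))))

/-- names of lines -/
def repB (M : List (List Bool)) (x y : Lp) : Lp :=
  bif decide (x.1 = x.2) then
    (bif decide (y.1 = x.1) then (bif hatB M x.1 y.2 then (y.2, y.2) else y)
     else bif hatB M x.1 y.1 && (decide (y.2 = x.1) || decide (y.1 = y.2)) then (y.1, y.1) else y)
  else bif hatB M x.1 x.2 && ((decide (y.1 = x.1) && decide (y.2 = x.1)) ||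
    ((decide (y.1 = x.2) && decide (y.2 = x.2)) ||
    (decide (y.1 = x.2) && decide (y.2 = x.1)))) then (x.2, x.1) else y

/-- the list of the points -/
def pts (M : List (List Bool)) : List Lp :=
  (List.range M.length ×ˢ List.range 4) ×ˢ (List.range M.length ×ˢ List.range 4)

/-- the list of the vertices -/
def verts (M : List (List Bool)) : List Lb :=
  (pts M).map (fun x => ((0, x, x) : Lb)) ++
  (((pts M ×ˢ pts M).filter (fun q => (pts M).any
    (fun y => !(decide (q.1 = y)) && decide (repB M q.1 y = q.2)))).map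
      (fun q => ((1, q.1, q.2) : Lb)) ++
  ((pts M ×ˢ pts M).filter (fun q => !(decide (q.1 = q.2)))).map
      (fun q => ((2, q.1, q.2) : Lb)))

/-- half of the adjacency relation -/
def relB (M : List (List Bool)) (a b : Lb) : Bool :=
  (decide (a.1 = 0) && (decide (b.1 = 1) && decide (a.2.1 = b.2.1))) ||
  ((decide (a.1 = 1) && (decide (b.1 = 2) && (decide (a.2.1 = b.2.1) &&
    decide (repB M b.2.1 b.2.2 = a.2.2)))) ||
  (decide (a.1 = 2) && (decide (b.1 = 2) && (!(decide (a.2.1 = a.2.2)) &&
    (decide (a.2.1 = b.2.2) && decide (a.2.2 = b.2.1))))))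

/-- adjacency -/
def adB (M : List (List Bool)) (a b : Lb) : Bool := relB M a b || relB M b a

/-- the output matrix -/
def out (M : List (List Bool)) : List (List Bool) :=
  (verts M).map (fun u => (verts M).map (fun w => adB M u w))

theorem adB_symm (M : List (List Bool)) (a b : Lb) : adB M a b = adB M b a := Bool.or_comm _ _

theorem adB_irrefl (M : List (List Bool)) (a : Lb) : adB M a a = false := by
  have h : relB M a a = false := by
    rw [Bool.eq_false_iff]
    intro h
    simp only [relB, Bool.or_eq_true, Bool.and_eq_true, decide_eq_true_eq,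
      Bool.not_eq_true', decide_eq_false_iff_not] at h
    rcases h with ⟨h1, h2, _⟩ | ⟨h1, h2, _⟩ | ⟨_, _, h3, h4, _⟩
    · omega
    · omega
    · exact h3 h4
  rw [adB, h]
  rfl

/-! ### Correctness -/

section

variable {n : ℕ} (X : SimpleGraph (Fin n))

/-- the label of a pair -/
def cW (x : Fin n × Fin 4) : ℕ × ℕ := (x.1, x.2)

/-- the label of a point -/
def cP (x : (Fin n × Fin 4) × (Fin n × Fin 4)) : Lp := (cW x.1, cW x.2)

theorem cW_inj {x y : Fin n × Fin 4} : cW x = cW y ↔ x = y := by
  constructor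
  · intro h
    simp only [cW, Prod.mk.injEq] at h
    exact Prod.ext (Fin.ext h.1) (Fin.ext h.2)
  · rintro rfl; rfl

theorem cP_inj {x y : (Fin n × Fin 4) × (Fin n × Fin 4)} : cP x = cP y ↔ x = y := by
  constructor
  · intro h
    simp only [cP, Prod.mk.injEq, cW_inj] at h
    exact Prod.ext h.1 h.2
  · rintro rfl; rfl

/-- the label of a vertex -/
def code (v : (spaceZ (hat X)).Vtx) : Lb :=
  match v.1 with
  | .r x => (0, cP x, cP x)
  | .u x c => (1, cP x, cP c)
  | .l x y => (2, cP x, cP y)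

theorem hatB_code (x y : Fin n × Fin 4) :
    hatB (adjMatrix X) (cW x) (cW y) = true ↔ (hat X).Adj x y := by
  obtain ⟨x1, x2⟩ := x
  obtain ⟨y1, y2⟩ := y
  have h0 : ∀ z : Fin 4, (z : ℕ) = 0 ↔ z = 0 := fun z => by
    rw [Fin.ext_iff]; rfl
  simp only [hatB, cW, Bool.or_eq_true, Bool.and_eq_true, decide_eq_true_eq, ent_adjMatrix,
    Bool.not_eq_true', decide_eq_false_iff_not, hat_adj, h0, Fin.val_inj]

theorem repB_code (x y : (Fin n × Fin 4) × (Fin n × Fin 4)) :
    repB (adjMatrix X) (cP x) (cP y) = cP (repZ (hat X) x y) := by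
  obtain ⟨x1, x2⟩ := x
  obtain ⟨y1, y2⟩ := y
  have h1 : ∀ a b : Fin n × Fin 4, decide (cW a = cW b) = true ↔ a = b := by
    intro a b
    rw [decide_eq_true_eq, cW_inj]
  have h2 := hatB_code X
  simp only [repB, cP, repZ, cond_eq_ite, Bool.and_eq_true, Bool.or_eq_true]
  grind (splits := 60)

theorem code_inj : Function.Injective (code X) := by
  rintro ⟨a, ha⟩ ⟨b, hb⟩ h
  apply Subtype.ext
  cases a <;> cases b <;> simp only [code, Prod.mk.injEq, cP_inj, true_and, and_self] at h <;>
    first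
    | omega
    | (obtain ⟨rfl, rfl⟩ := h; rfl)

theorem adB_code (a b : (spaceZ (hat X)).Vtx) :
    adB (adjMatrix X) (code X a) (code X b) = true ↔ (spaceZ (hat X)).graph.Adj a b := by
  obtain ⟨a, ha⟩ := a
  obtain ⟨b, hb⟩ := b
  change _ ↔ (spaceZ (hat X)).adj a b
  have ha' := ha
  have hb' := hb
  cases a <;> cases b <;>
    simp only [adB, relB, code, LinSpace.adj, Bool.or_eq_true, Bool.and_eq_true,
      decide_eq_true_eq, Bool.not_eq_true', decide_eq_false_iff_not, repB_code, cP_inj, spaceZ,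
      LinSpace.valid_l] at * <;> grind

theorem mem_pts (z : Lp) : z ∈ pts (adjMatrix X) ↔ ∃ x, cP (n := n) x = z := by
  unfold pts
  rw [length_adjMatrix]
  obtain ⟨⟨a, b⟩, ⟨c, d⟩⟩ := z
  simp only [List.mem_product, List.mem_range]
  constructor
  · rintro ⟨⟨h1, h2⟩, h3, h4⟩
    exact ⟨((⟨a, h1⟩, ⟨b, h2⟩), (⟨c, h3⟩, ⟨d, h4⟩)), rfl⟩
  · rintro ⟨⟨⟨x1, x2⟩, ⟨x3, x4⟩⟩, h⟩
    simp only [cP, cW, Prod.mk.injEq] at h
    obtain ⟨⟨rfl, rfl⟩, rfl, rfl⟩ := h
    exact ⟨⟨x1.2, x2.2⟩, x3.2, x4.2⟩

theorem mem_verts (z : Lb) : z ∈ verts (adjMatrix X) ↔ ∃ a, code X a = z := by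
  unfold verts
  simp only [List.mem_append, List.mem_map, List.mem_filter,
    List.any_eq_true, Bool.and_eq_true, decide_eq_true_eq, Bool.not_eq_true',
    decide_eq_false_iff_not]
  constructor
  · rintro (⟨x, hx, rfl⟩ | ⟨⟨x, c⟩, ⟨hm, y, hy, h1, h2⟩, rfl⟩ | ⟨⟨x, y⟩, ⟨hm, h1⟩, rfl⟩)
    · obtain ⟨x', rfl⟩ := (mem_pts X x).1 hx
      exact ⟨⟨.r x', trivial⟩, rfl⟩
    · rw [List.mem_product] at hm
      obtain ⟨x', rfl⟩ := (mem_pts X x).1 hm.1
      obtain ⟨c', rfl⟩ := (mem_pts X c).1 hm.2
      obtain ⟨y', rfl⟩ := (mem_pts X y).1 hy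
      dsimp only at h1 h2
      rw [cP_inj] at h1
      rw [repB_code, cP_inj] at h2
      exact ⟨⟨.u x' c', y', h1, h2⟩, rfl⟩
    · rw [List.mem_product] at hm
      obtain ⟨x', rfl⟩ := (mem_pts X x).1 hm.1
      obtain ⟨y', rfl⟩ := (mem_pts X y).1 hm.2
      dsimp only at h1
      rw [cP_inj] at h1
      exact ⟨⟨.l x' y', h1⟩, rfl⟩
  · have hc : ∀ x, cP (n := n) x ∈ pts (adjMatrix X) := fun x => (mem_pts X _).2 ⟨x, rfl⟩
    rintro ⟨⟨a, ha⟩, rfl⟩
    cases a with
    | r x => exact Or.inl ⟨cP x, hc x, rfl⟩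
    | u x c =>
      obtain ⟨y, hy, hc'⟩ := ha
      refine Or.inr (Or.inl ⟨(cP x, cP c), ⟨List.mem_product.2 ⟨hc x, hc c⟩, cP y, hc y,
        ?_, ?_⟩, rfl⟩)
      · rw [cP_inj]; exact hy
      · rw [repB_code, cP_inj]; exact hc'
    | l x y =>
      refine Or.inr (Or.inr ⟨(cP x, cP y), ⟨List.mem_product.2 ⟨hc x, hc y⟩, ?_⟩, rfl⟩)
      rw [cP_inj]; exact ha

end

theorem nodup_pts (M : List (List Bool)) : (pts M).Nodup := by
  have hr : ∀ k : ℕ, (List.range k).Nodup := fun k => List.nodup_range
  exact List.Nodup.product (List.Nodup.product (hr _) (hr _)) (List.Nodup.product (hr _) (hr _))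

theorem nodup_verts (M : List (List Bool)) : (verts M).Nodup := by
  unfold verts
  have hp := nodup_pts M
  refine List.Nodup.append ?_ (List.Nodup.append ?_ ?_ ?_) ?_
  · refine hp.map fun a b h => ?_
    simp only [Prod.mk.injEq, true_and] at h
    exact h.1
  · refine ((List.Nodup.product hp hp).filter _).map fun a b h => ?_
    simp only [Prod.mk.injEq, true_and] at h
    exact Prod.ext h.1 h.2
  · refine ((List.Nodup.product hp hp).filter _).map fun a b h => ?_
    simp only [Prod.mk.injEq, true_and] at h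
    exact Prod.ext h.1 h.2
  · intro z h1 h2
    rw [List.mem_map] at h1 h2
    obtain ⟨p, _, rfl⟩ := h1
    obtain ⟨q, _, h3⟩ := h2
    exact absurd (congrArg Prod.fst h3) (by simp)
  · intro z h1 h2
    rw [List.mem_map] at h1
    rw [List.mem_append, List.mem_map, List.mem_map] at h2
    obtain ⟨p, _, rfl⟩ := h1
    rcases h2 with ⟨q, _, h3⟩ | ⟨q, _, h3⟩
    · exact absurd (congrArg Prod.fst h3) (by simp)
    · exact absurd (congrArg Prod.fst h3) (by simp)

/-- The output is the adjacency matrix of a graph isomorphic to the construction. -/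
theorem out_eq {n : ℕ} (X : SimpleGraph (Fin n)) : ∃ (N : ℕ) (X' : SimpleGraph (Fin N)),
    adjMatrix X' = out (adjMatrix X) ∧ Nonempty (X' ≃g (spaceZ (hat X)).graph) := by
  obtain ⟨e, he⟩ := exists_equiv (verts (adjMatrix X)) (nodup_verts _) (code X)
    (code_inj X) (mem_verts X)
  refine ⟨_, listGraph (verts (adjMatrix X)) (adB (adjMatrix X)) (adB_symm _) (adB_irrefl _),
    ?_, ⟨⟨e, ?_⟩⟩⟩
  · rw [adjMatrix_listGraph]
    rfl
  · intro a b
    rw [← adB_code, he, he]
    exact Iff.rfl

/-! ### Invariance of 2-connectedness, and small graphs -/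

theorem TwoConnected.of_iso {V W : Type*} {G : SimpleGraph V} {H : SimpleGraph W} (φ : G ≃g H)
    (h : TwoConnected G) : TwoConnected H := by
  obtain ⟨h1, h2, h3⟩ := h
  refine ⟨?_, (φ.connected_iff).1 h2, fun v => ?_⟩
  · rwa [← ENat.card_congr φ.toEquiv]
  · have h4 := h3 (φ.symm v)
    have ψ : G.induce {w | w ≠ φ.symm v} ≃g H.induce {w | w ≠ v} :=
      ⟨φ.toEquiv.subtypeEquiv (fun a => by
        constructor
        · intro ha hb
          apply ha
          rw [← hb]
          exact (φ.symm_apply_apply a).symm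
        · intro ha hb
          apply ha
          rw [hb]
          exact φ.apply_symm_apply v), by
        intro a b
        exact φ.map_adj_iff⟩
    exact (ψ.connected_iff).1 h4

theorem complete_geodetic {V : Type*} [Nonempty V] : IsGeodetic (⊤ : SimpleGraph V) := by
  classical
  refine IsDist.geodetic (D := fun x y => if x = y then 0 else 1) ⟨?_, ?_, ?_, ?_⟩
  · intro x; simp
  · intro x y z _
    split_ifs <;> omega
  · intro x y hxy
    exact ⟨x, (SimpleGraph.top_adj y x).2 hxy.symm, by simp [hxy]⟩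
  · intro x y z z' _ _ h3 h4
    split_ifs at h3 h4 <;> try omega
    simp_all

theorem complete_two {k : ℕ} (hk : 3 ≤ k) : TwoConnected (⊤ : SimpleGraph (Fin k)) := by
  have : NeZero k := ⟨by omega⟩
  refine ⟨?_, SimpleGraph.connected_top, fun v => ?_⟩
  · simp only [ENat.card_eq_coe_fintype_card, Fintype.card_fin]
    exact_mod_cast hk
  · have : Nonempty ({w | w ≠ v} : Set (Fin k)) := by
      by_cases h : v = ⟨0, by omega⟩
      · exact ⟨⟨⟨1, by omega⟩, by rw [h]; simp⟩⟩
      · exact ⟨⟨⟨0, by omega⟩, fun h' => h h'.symm⟩⟩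
    have h : (⊤ : SimpleGraph (Fin k)).induce {w | w ≠ v} = ⊤ := by
      ext a b
      simp [Subtype.ext_iff]
    rw [h]
    exact SimpleGraph.connected_top

/-- the reduction -/
def red (p : List (List Bool) × List (List Bool)) : List (List Bool) × List (List Bool) :=
  if (valid p.1 = true ∧ valid p.2 = true) ∧ p.1.length = p.2.length then
    (if p.1.length = 0 then
      ([[false, true, true], [true, false, true], [true, true, false]],
        [[false, true, true], [true, false, true], [true, true, false]])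
    else (out p.1, out p.2))
  else ([[false, true, true], [true, false, true], [true, true, false]],
    [[false, true, true, true], [true, false, true, true], [true, true, false, true],
      [true, true, true, false]])

theorem adj_three : adjMatrix (⊤ : SimpleGraph (Fin 3)) =
    [[false, true, true], [true, false, true], [true, true, false]] := by
  simp [adjMatrix, List.ofFn_succ]

theorem adj_four : adjMatrix (⊤ : SimpleGraph (Fin 4)) =
    [[false, true, true, true], [true, false, true, true], [true, true, false, true],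
      [true, true, true, false]] := by
  simp [adjMatrix, List.ofFn_succ]

theorem red_spec (p : List (List Bool) × List (List Bool)) :
    ∃ (N M : ℕ) (X' : SimpleGraph (Fin N)) (Y' : SimpleGraph (Fin M)),
      red p = (adjMatrix X', adjMatrix Y') ∧ (IsGeodetic X' ∧ TwoConnected X') ∧
        (IsGeodetic Y' ∧ TwoConnected Y') ∧ (GraphIso p ↔ Nonempty (X' ≃g Y')) := by
  by_cases h : (valid p.1 = true ∧ valid p.2 = true) ∧ p.1.length = p.2.length
  · obtain ⟨p1, p2⟩ := p
    obtain ⟨⟨h1, h2⟩, h3⟩ := h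
    have h1' := h1
    have h2' := h2
    rw [valid_iff] at h1 h2
    obtain ⟨n, X, rfl⟩ := h1
    obtain ⟨m, Y, rfl⟩ := h2
    rw [length_adjMatrix, length_adjMatrix] at h3
    subst h3
    have h5 : GraphIso (adjMatrix X, adjMatrix Y) ↔ Nonempty (X ≃g Y) := by
      constructor
      · rintro ⟨n', m', X₁, Y₁, e1, e2, h⟩
        have hn' : n' = n := by
          rw [← length_adjMatrix X₁, e1, length_adjMatrix]
        have hm' : m' = n := by
          rw [← length_adjMatrix Y₁, e2, length_adjMatrix]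
        subst hn'
        subst hm'
        rw [adjMatrix_inj e1, adjMatrix_inj e2] at h
        exact h
      · intro h
        exact ⟨n, n, X, Y, rfl, rfl, h⟩
    by_cases hn : n = 0
    · subst hn
      refine ⟨3, 3, ⊤, ⊤, ?_, ⟨complete_geodetic, complete_two le_rfl⟩,
        ⟨complete_geodetic, complete_two le_rfl⟩, ?_⟩
      · unfold red
        rw [if_pos ⟨⟨h1', h2'⟩, by rw [length_adjMatrix, length_adjMatrix]⟩,
          if_pos (by rw [length_adjMatrix]), adj_three]
      · rw [h5]
        exact ⟨fun _ => ⟨SimpleGraph.Iso.refl⟩, fun _ => ⟨⟨Equiv.refl _, fun {a} => a.elim0⟩⟩⟩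
    · have : NeZero n := ⟨hn⟩
      obtain ⟨N, X', hX', ⟨φ⟩⟩ := out_eq X
      obtain ⟨M, Y', hY', ⟨ψ⟩⟩ := out_eq Y
      refine ⟨N, M, X', Y', ?_, ⟨(hat_geodetic X).of_iso φ.symm, (hat_two X).of_iso φ.symm⟩,
        ⟨(hat_geodetic Y).of_iso ψ.symm, (hat_two Y).of_iso ψ.symm⟩, ?_⟩
      · unfold red
        rw [if_pos ⟨⟨h1', h2'⟩, by rw [length_adjMatrix, length_adjMatrix]⟩,
          if_neg (by rw [length_adjMatrix]; exact hn), hX', hY']
      · rw [h5, iso_iff X Y]
        constructor
        · rintro ⟨χ⟩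
          exact ⟨φ.trans (χ.trans ψ.symm)⟩
        · rintro ⟨χ⟩
          exact ⟨φ.symm.trans (χ.trans ψ)⟩
  · refine ⟨3, 4, ⊤, ⊤, ?_, ⟨complete_geodetic, complete_two le_rfl⟩,
      ⟨complete_geodetic, complete_two (by norm_num)⟩, ?_⟩
    · unfold red
      rw [if_neg h, adj_three, adj_four]
    · constructor
      · rintro ⟨n, m, X, Y, h1, h2, ⟨φ⟩⟩
        exfalso
        apply h
        refine ⟨⟨(valid_iff _).2 ⟨n, X, h1⟩, (valid_iff _).2 ⟨m, Y, h2⟩⟩, ?_⟩
        rw [← h1, ← h2, length_adjMatrix, length_adjMatrix]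
        have := Fintype.card_congr φ.toEquiv
        simpa using this
      · rintro ⟨φ⟩
        have := Fintype.card_congr φ.toEquiv
        simp at this

/-! ### Polynomial time -/

section

variable {α : Type} [TEnc α]

@[fun_prop]
theorem poly_hatB {f : α → List (List Bool)} {x y : α → ℕ × ℕ} (hf : Poly f) (hx : Poly x)
    (hy : Poly y) : Poly (fun a => hatB (f a) (x a) (y a)) := by
  unfold hatB
  fun_prop

@[fun_prop]
theorem poly_repB {f : α → List (List Bool)} {x y : α → Lp} (hf : Poly f) (hx : Poly x)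
    (hy : Poly y) : Poly (fun a => repB (f a) (x a) (y a)) := by
  unfold repB
  fun_prop

@[fun_prop]
theorem poly_pts {f : α → List (List Bool)} (hf : Poly f) : Poly (fun a => pts (f a)) := by
  unfold pts
  fun_prop

@[fun_prop]
theorem poly_verts {f : α → List (List Bool)} (hf : Poly f) : Poly (fun a => verts (f a)) := by
  unfold verts
  fun_prop

@[fun_prop]
theorem poly_relB {f : α → List (List Bool)} {a b : α → Lb} (hf : Poly f) (ha : Poly a)
    (hb : Poly b) : Poly (fun x => relB (f x) (a x) (b x)) := by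
  unfold relB
  fun_prop

@[fun_prop]
theorem poly_adB {f : α → List (List Bool)} {a b : α → Lb} (hf : Poly f) (ha : Poly a)
    (hb : Poly b) : Poly (fun x => adB (f x) (a x) (b x)) := by
  unfold adB
  fun_prop

@[fun_prop]
theorem poly_out {f : α → List (List Bool)} (hf : Poly f) : Poly (fun a => out (f a)) := by
  unfold out
  fun_prop

end

theorem poly_red : Poly red := by
  unfold red
  fun_prop

/-- The reduction on bit strings. -/
def redBits (x : List Bool) : List (List Bool) × List (List Bool) :=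
  (unbits (List (List Bool) × List (List Bool)) x).elim (red ([], [[]])) red

theorem poly_redBits : Poly redBits := by
  unfold redBits
  exact NPC.Poly.optElim poly_unbits (NPC.Poly.const _) (poly_red.comp (NPC.Poly.snd NPC.Poly.id))

theorem redBits_spec (x : List Bool) :
    ∃ (N M : ℕ) (X' : SimpleGraph (Fin N)) (Y' : SimpleGraph (Fin M)),
      redBits x = (adjMatrix X', adjMatrix Y') ∧ (IsGeodetic X' ∧ TwoConnected X') ∧
        (IsGeodetic Y' ∧ TwoConnected Y') ∧ (x ∈ lang GraphIso ↔ Nonempty (X' ≃g Y')) := by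
  unfold redBits
  rw [mem_lang_iff]
  cases h : unbits (List (List Bool) × List (List Bool)) x with
  | none =>
    obtain ⟨N, M, X', Y', h1, h2, h3, h4⟩ := red_spec ([], [[]])
    refine ⟨N, M, X', Y', h1, h2, h3, ?_⟩
    rw [← h4]
    constructor
    · rintro ⟨a, ha, _⟩
      exact absurd ha (by simp)
    · rintro ⟨n, m, X, Y, e1, e2, -⟩
      exfalso
      have h5 : m = 1 := by
        rw [← length_adjMatrix Y, e2]
        rfl
      subst h5
      simp [adjMatrix] at e2
  | some p =>
    obtain ⟨N, M, X', Y', h1, h2, h3, h4⟩ := red_spec p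
    refine ⟨N, M, X', Y', h1, h2, h3, ?_⟩
    rw [← h4]
    constructor
    · rintro ⟨a, ha, h5⟩
      rw [Option.some.inj ha]
      exact h5
    · intro h5
      exact ⟨p, rfl, h5⟩

/-- The graph isomorphism problem reduces in polynomial time to the isomorphism problem of
2-connected geodetic graphs. -/
theorem main : ∃ f : List Bool → List Bool, PolyTime f ∧ ∀ x : List Bool,
    ∃ (N M : ℕ) (X' : SimpleGraph (Fin N)) (Y' : SimpleGraph (Fin M)),
      f x = bits (adjMatrix X', adjMatrix Y') ∧ (IsGeodetic X' ∧ TwoConnected X') ∧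
        (IsGeodetic Y' ∧ TwoConnected Y') ∧ (x ∈ lang GraphIso ↔ Nonempty (X' ≃g Y')) := by
  refine ⟨fun x => bits (redBits x), polyTime_bits poly_redBits, fun x => ?_⟩
  obtain ⟨N, M, X', Y', h1, h2, h3, h4⟩ := redBits_spec x
  exact ⟨N, M, X', Y', congrArg bits h1, h2, h3, h4⟩

end Pool.Agent.U17.Geo
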